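import Pool.Agent.Y562.NN.KA2

/-!
# Discrete valuation rings dominating one-dimensional localizations of Noetherian domains
-/

set_option autoImplicit false

namespace Pool.Agent.Y562.NN

open IsLocalRing

section

variable (B : Type*) [CommRing B] [IsDomain B] [IsNoetherianRing B]
  (K : Type*) [Field K] [Algebra B K] [IsFractionRing B K]
  (L : Type*) [Field L] [Algebra K L] [Algebra B L] [IsScalarTower B K L] [FiniteDimensional K L]

include K in
/-- Let `𝔮` be a prime ideal of height one of a Noetherian domain `B` and `L` a finite extension of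
the field of fractions. There is a discrete valuation ring of `L` which dominates the localization
of `B` at `𝔮`, and its residue field is finite over the residue field of `𝔮`. -/
theorem exists_dvr (𝔮 : Ideal B) [𝔮.IsPrime] (h0 : 𝔮 ≠ ⊥) (h1 : 𝔮.height ≤ 1) :
    ∃ V : ValuationSubring L, IsDiscreteValuationRing V ∧
      (∀ b ∈ 𝔮, V.valuation (algebraMap B L b) < 1) ∧
      (∀ b, b ∉ 𝔮 → V.valuation (algebraMap B L b) = 1) ∧
      ∃ f : 𝔮.ResidueField →+* ResidueField V, f.Finite := by
  let R := Localization.AtPrime 𝔮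
  have hu : ∀ y : 𝔮.primeCompl, IsUnit (algebraMap B K y) := by
    intro y
    rw [isUnit_iff_ne_zero, Ne, FaithfulSMul.algebraMap_eq_zero_iff]
    intro h
    exact y.2 (by rw [h]; exact 𝔮.zero_mem)
  let : Algebra R K := (IsLocalization.lift (M := 𝔮.primeCompl) (S := R) hu).toAlgebra
  have hBRK : IsScalarTower B R K :=
    IsScalarTower.of_algebraMap_eq' (IsLocalization.lift_comp hu).symm
  have hRK : IsFractionRing R K :=
    IsFractionRing.isFractionRing_of_isDomain_of_isLocalization 𝔮.primeCompl R K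
  have hdom : IsDomain R := inferInstance
  let : Algebra R L := ((algebraMap K L).comp (algebraMap R K)).toAlgebra
  have hRKL : IsScalarTower R K L := IsScalarTower.of_algebraMap_eq' rfl
  have hBRL : IsScalarTower B R L := by
    refine IsScalarTower.of_algebraMap_eq' ?_
    rw [IsScalarTower.algebraMap_eq B K L, IsScalarTower.algebraMap_eq B R K,
      IsScalarTower.algebraMap_eq R K L, RingHom.comp_assoc]
  have hdim : Ring.KrullDimLE 1 R := by
    rw [Ring.krullDimLE_iff, IsLocalization.AtPrime.ringKrullDim_eq_height 𝔮 R]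
    exact_mod_cast h1
  obtain ⟨V, hV, hloc⟩ := IsLocalRing.exists_factor_valuationRing (algebraMap R L)
  let φ : R →+* V := (algebraMap R L).codRestrict V.toSubring hV
  have hφ : IsLocalHom φ := hloc
  let : Algebra R V := φ.toAlgebra
  have hRVL : IsScalarTower R V L := IsScalarTower.of_algebraMap_eq (fun x => rfl)
  obtain ⟨hN, hfin⟩ := ka R K L V
  have hmem : ∀ b ∈ 𝔮, φ (algebraMap B R b) ∈ maximalIdeal V := by
    intro b hb
    have h2 : algebraMap B R b ∈ maximalIdeal R :=
      (IsLocalization.AtPrime.to_map_mem_maximal_iff R 𝔮 b).2 hb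
    rw [mem_maximalIdeal] at h2 ⊢
    exact map_mem_nonunits_iff φ _ |>.2 h2
  have hco : ∀ b, (φ (algebraMap B R b) : L) = algebraMap B L b := fun b =>
    (IsScalarTower.algebraMap_apply B R L b).symm
  obtain ⟨b, hb, hb0⟩ := Submodule.exists_mem_ne_zero_of_ne_bot h0
  have hc0 : algebraMap B R b ≠ 0 := by
    rw [Ne, FaithfulSMul.algebraMap_eq_zero_iff]
    exact hb0
  refine ⟨V, ?_, ?_, ?_, ResidueField.map φ, ?_⟩
  · have hpid : IsPrincipalIdealRing V := IsPrincipalIdealRing.of_isNoetherianRing_of_isBezout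
    refine { toIsPrincipalIdealRing := hpid, toIsLocalRing := inferInstance, not_a_field' := ?_ }
    intro h2
    have h3 := hmem b hb
    rw [h2, Ideal.mem_bot] at h3
    have h4 := congrArg (Subtype.val) h3
    have h5 : algebraMap R L (algebraMap B R b) = 0 := h4
    rw [IsScalarTower.algebraMap_apply R K L, map_eq_zero, FaithfulSMul.algebraMap_eq_zero_iff]
      at h5
    exact hc0 h5
  · intro b hb
    have h2 := (V.valuation_lt_one_iff _).1 (hmem b hb)
    rwa [hco] at h2
  · intro b hb
    have h2 : IsUnit (algebraMap B R b) :=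
      IsLocalization.map_units R (⟨b, hb⟩ : 𝔮.primeCompl)
    have h3 := (V.valuation_eq_one_iff _).1 (h2.map φ)
    rwa [hco] at h3
  · have h2 : Module.Finite R (V ⧸ maximalIdeal V) := hfin (maximalIdeal V) _ hc0 (hmem b hb)
    have h3 : ((ResidueField.map φ).comp (residue R)).Finite := by
      rw [ResidueField.map_comp_residue]
      exact h2
    exact h3.of_comp_finite

include K in
theorem exists_not_pow (hB : ¬ IsField B) (d : ℕ) (hd : 2 ≤ d) : ∃ a : L, ∀ c : L, c ^ d ≠ a := by
  obtain ⟨b, hb0, hb⟩ := Ring.exists_not_isUnit_of_not_isField hB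
  have h1 : Ideal.span {b} ≠ ⊤ := by
    rw [Ne, Ideal.span_singleton_eq_top]
    exact hb
  obtain ⟨𝔮, h𝔮⟩ := Ideal.nonempty_minimalPrimes h1
  have hp : 𝔮.IsPrime := h𝔮.1.1
  have h2 : 𝔮.height ≤ 1 := Ideal.height_le_one_of_isPrincipal_of_mem_minimalPrimes _ 𝔮 h𝔮
  have h3 : 𝔮 ≠ ⊥ := by
    rintro rfl
    exact hb0 (h𝔮.1.2 (Ideal.mem_span_singleton_self b))
  obtain ⟨V, hV, -⟩ := exists_dvr B K L 𝔮 h3 h2
  obtain ⟨ϖ, hϖ⟩ := IsDiscreteValuationRing.exists_irreducible V
  refine ⟨ϖ, fun c hc => ?_⟩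
  have h4 : IsIntegral V c := by
    refine IsIntegral.of_pow (show 0 < d by omega) ?_
    rw [hc]
    exact isIntegral_algebraMap (R := V) (A := L) (x := ϖ)
  obtain ⟨y, rfl⟩ := IsIntegrallyClosed.isIntegral_iff.1 h4
  have h5 : y ^ d = ϖ := Subtype.ext hc
  obtain ⟨e, rfl⟩ : ∃ e, d = e + 2 := ⟨d - 2, by omega⟩
  rw [pow_succ] at h5
  have h6 := hϖ.isUnit_or_isUnit h5.symm
  have h7 : IsUnit y := by
    rcases h6 with h6 | h6
    · exact (isUnit_pow_iff (by omega)).1 h6
    · exact h6
  apply hϖ.not_isUnit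
  rw [← h5]
  exact (h7.pow _).mul h7

end

end Pool.Agent.Y562.NN
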