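import Pool.Agent.Y562.NN.Main

/-!
# The residue degree of a valuation over a discrete valuation ring
-/

set_option autoImplicit false

namespace Pool.Agent.Y562.NN

open IsLocalRing Polynomial

section

variable (B : Type*) [CommRing B] [IsDomain B] [IsNoetherianRing B]
  (K : Type*) [Field K] [Algebra B K] [IsFractionRing B K]
  (L : Type*) [Field L] [Algebra K L] [Algebra B L] [IsScalarTower B K L] [FiniteDimensional K L]

include K in
/-- Variant of `exists_dvr` which records the residue map. -/
theorem exists_dvr' (𝔮 : Ideal B) [𝔮.IsPrime] (h0 : 𝔮 ≠ ⊥) (h1 : 𝔮.height ≤ 1) :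
    ∃ V : ValuationSubring L, IsDiscreteValuationRing V ∧
      (∀ b ∈ 𝔮, V.valuation (algebraMap B L b) < 1) ∧
      (∀ b, b ∉ 𝔮 → V.valuation (algebraMap B L b) = 1) ∧
      ∃ f : 𝔮.ResidueField →+* ResidueField V, f.Finite ∧
        ∀ b (hb : algebraMap B L b ∈ V),
          residue V ⟨algebraMap B L b, hb⟩ = f (algebraMap B 𝔮.ResidueField b) := by
  let R := Localization.AtPrime 𝔮
  have hu : ∀ y : 𝔮.primeCompl, IsUnit (algebraMap B K y) := by
    intro y
    rw [isUnit_iff_ne_zero, Ne, FaithfulSMul.algebraMap_eq_zero_iff]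
    intro h
    exact y.2 (by rw [h]; exact 𝔮.zero_mem)
  let : Algebra R K := (IsLocalization.lift (M := 𝔮.primeCompl) (S := R) hu).toAlgebra
  have hBRK : IsScalarTower B R K :=
    IsScalarTower.of_algebraMap_eq' (IsLocalization.lift_comp hu).symm
  have hRK : IsFractionRing R K :=
    IsFractionRing.isFractionRing_of_isDomain_of_isLocalization 𝔮.primeCompl R K
  have hdom : IsDomain R := inferInstance
  let : Algebra R L := ((algebraMap K L).comp (algebraMap R K)).toAlgebra
  have hRKL : IsScalarTower R K L := IsScalarTower.of_algebraMap_eq' rfl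
  have hBRL : IsScalarTower B R L := by
    refine IsScalarTower.of_algebraMap_eq' ?_
    rw [IsScalarTower.algebraMap_eq B K L, IsScalarTower.algebraMap_eq B R K,
      IsScalarTower.algebraMap_eq R K L, RingHom.comp_assoc]
  have hdim : Ring.KrullDimLE 1 R := by
    rw [Ring.krullDimLE_iff, IsLocalization.AtPrime.ringKrullDim_eq_height 𝔮 R]
    exact_mod_cast h1
  obtain ⟨V, hV, hloc⟩ := IsLocalRing.exists_factor_valuationRing (algebraMap R L)
  let φ : R →+* V := (algebraMap R L).codRestrict V.toSubring hV
  have hφ : IsLocalHom φ := hloc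
  let : Algebra R V := φ.toAlgebra
  have hRVL : IsScalarTower R V L := IsScalarTower.of_algebraMap_eq (fun x => rfl)
  obtain ⟨hN, hfin⟩ := ka R K L V
  have hmem : ∀ b ∈ 𝔮, φ (algebraMap B R b) ∈ maximalIdeal V := by
    intro b hb
    have h2 : algebraMap B R b ∈ maximalIdeal R :=
      (IsLocalization.AtPrime.to_map_mem_maximal_iff R 𝔮 b).2 hb
    rw [mem_maximalIdeal] at h2 ⊢
    exact map_mem_nonunits_iff φ _ |>.2 h2
  have hco : ∀ b, (φ (algebraMap B R b) : L) = algebraMap B L b := fun b =>
    (IsScalarTower.algebraMap_apply B R L b).symm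
  obtain ⟨b, hb, hb0⟩ := Submodule.exists_mem_ne_zero_of_ne_bot h0
  have hc0 : algebraMap B R b ≠ 0 := by
    rw [Ne, FaithfulSMul.algebraMap_eq_zero_iff]
    exact hb0
  refine ⟨V, ?_, ?_, ?_, ResidueField.map φ, ?_, ?_⟩
  · have hpid : IsPrincipalIdealRing V := IsPrincipalIdealRing.of_isNoetherianRing_of_isBezout
    refine { toIsPrincipalIdealRing := hpid, toIsLocalRing := inferInstance, not_a_field' := ?_ }
    intro h2
    have h3 := hmem b hb
    rw [h2, Ideal.mem_bot] at h3
    have h4 := congrArg (Subtype.val) h3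
    have h5 : algebraMap R L (algebraMap B R b) = 0 := h4
    rw [IsScalarTower.algebraMap_apply R K L, map_eq_zero, FaithfulSMul.algebraMap_eq_zero_iff]
      at h5
    exact hc0 h5
  · intro b hb
    have h2 := (V.valuation_lt_one_iff _).1 (hmem b hb)
    rwa [hco] at h2
  · intro b hb
    have h2 : IsUnit (algebraMap B R b) :=
      IsLocalization.map_units R (⟨b, hb⟩ : 𝔮.primeCompl)
    have h3 := (V.valuation_eq_one_iff _).1 (h2.map φ)
    rwa [hco] at h3
  · have h2 : Module.Finite R (V ⧸ maximalIdeal V) := hfin (maximalIdeal V) _ hc0 (hmem b hb)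
    have h3 : ((ResidueField.map φ).comp (residue R)).Finite := by
      rw [ResidueField.map_comp_residue]
      exact h2
    exact h3.of_comp_finite
  · intro b hb
    have h2 : (⟨algebraMap B L b, hb⟩ : V) = φ (algebraMap B R b) := Subtype.ext (hco b).symm
    rw [h2]
    have h3 : algebraMap B 𝔮.ResidueField b = residue R (algebraMap B R b) := rfl
    rw [h3, ResidueField.map_residue]

/-- The residue degree is at most the degree. -/
theorem finrank_residue_le (𝔮 : Ideal B) [𝔮.IsPrime]
    (hval : ∀ z : K, (∃ b s : B, s ∉ 𝔮 ∧ z * algebraMap B K s = algebraMap B K b) ∨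
      ∃ b s : B, s ∉ 𝔮 ∧ z⁻¹ * algebraMap B K s = algebraMap B K b)
    (V : ValuationSubring L) (hV1 : ∀ b ∈ 𝔮, V.valuation (algebraMap B L b) < 1)
    (hV2 : ∀ b, b ∉ 𝔮 → V.valuation (algebraMap B L b) = 1)
    (f : 𝔮.ResidueField →+* ResidueField V)
    (hf : ∀ b (hb : algebraMap B L b ∈ V),
      residue V ⟨algebraMap B L b, hb⟩ = f (algebraMap B 𝔮.ResidueField b)) :
    letI : Algebra 𝔮.ResidueField (ResidueField V) := f.toAlgebra
    ∀ (m : ℕ) (u : Fin m → ResidueField V), LinearIndependent 𝔮.ResidueField u →
      m ≤ Module.finrank K L := by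
  let _ : Algebra 𝔮.ResidueField (ResidueField V) := f.toAlgebra
  intro m u hu
  have hBV : ∀ b, algebraMap B L b ∈ V := by
    intro b
    rw [← V.valuation_le_one_iff]
    by_cases hb : b ∈ 𝔮
    · exact (hV1 b hb).le
    · exact (hV2 b hb).le
  -- elements of `K` in `V` are quotients `b / s` with `s` outside of `𝔮`
  have hKV : ∀ z : K, algebraMap K L z ∈ V →
      ∃ b s : B, s ∉ 𝔮 ∧ z * algebraMap B K s = algebraMap B K b := by
    intro z hz
    rcases hval z with h | ⟨b, s, hs, h⟩
    · exact h
    · by_cases hz0 : z = 0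
      · refine ⟨0, 1, ?_, ?_⟩
        · intro h1
          exact Ideal.IsPrime.ne_top inferInstance ((Ideal.eq_top_iff_one _).2 h1)
        · rw [hz0, map_zero, zero_mul]
      · by_cases hb : b ∈ 𝔮
        · exfalso
          have h1 : algebraMap B K s = z * algebraMap B K b := by
            rw [← h, mul_inv_cancel_left₀ hz0]
          have h2 := congrArg (fun x => V.valuation (algebraMap K L x)) h1
          simp only [map_mul, ← IsScalarTower.algebraMap_apply B K L] at h2
          rw [hV2 s hs] at h2
          have h3 : V.valuation (algebraMap K L z) ≤ 1 := (V.valuation_le_one_iff _).2 hz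
          have h4 : V.valuation (algebraMap K L z) * V.valuation (algebraMap B L b) < 1 :=
            (mul_le_of_le_one_left' h3).trans_lt (hV1 b hb)
          exact absurd h2 h4.ne'
        · refine ⟨s, b, hb, ?_⟩
          rw [← h, mul_inv_cancel_left₀ hz0]
  have hus : ∀ i, ∃ w : V, residue V w = u i := fun i => residue_surjective (u i)
  choose w hw using hus
  have hli : LinearIndependent K (fun i => (w i : L)) := by
    rw [Fintype.linearIndependent_iff]
    intro c hc
    by_contra hcon
    push Not at hcon
    obtain ⟨i0, hi0⟩ := hcon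
    have hne : Nonempty (Fin m) := ⟨i0⟩
    obtain ⟨j, hj⟩ := Finite.exists_max fun i => V.valuation (algebraMap K L (c i))
    have hcj : c j ≠ 0 := by
      intro h
      have h1 := hj i0
      rw [h, map_zero, map_zero, le_zero_iff, Valuation.zero_iff, map_eq_zero] at h1
      exact hi0 h1
    have hcjL : algebraMap K L (c j) ≠ 0 := by
      rw [Ne, map_eq_zero]
      exact hcj
    have h2 : ∀ i, algebraMap K L (c i / c j) ∈ V := by
      intro i
      rw [← V.valuation_le_one_iff, map_div₀, map_div₀]
      exact div_le_one_of_le₀ (hj i) zero_le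
    have h3 := fun i => hKV _ (h2 i)
    choose b s hs hbs using h3
    have h4 : ∑ i, (⟨algebraMap K L (c i / c j), h2 i⟩ : V) * w i = 0 := by
      apply Subtype.ext
      have h5 : ((∑ i, (⟨algebraMap K L (c i / c j), h2 i⟩ : V) * w i : V) : L) =
          ∑ i, algebraMap K L (c i / c j) * (w i : L) := by
        push_cast
        rfl
      rw [h5]
      have h6 : ∑ i, algebraMap K L (c i / c j) * (w i : L) =
          (algebraMap K L (c j))⁻¹ * ∑ i, c i • (w i : L) := by
        rw [Finset.mul_sum]
        refine Finset.sum_congr rfl fun i _ => ?_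
        rw [Algebra.smul_def, map_div₀, div_eq_mul_inv]
        ring
      rw [h6, hc, mul_zero]
      rfl
    have h5 := congrArg (residue V) h4
    rw [map_sum, map_zero] at h5
    have hfs : ∀ i, f (algebraMap B 𝔮.ResidueField (s i)) ≠ 0 := by
      intro i
      rw [Ne, map_eq_zero]
      intro h
      rw [IsScalarTower.algebraMap_apply B (Localization.AtPrime 𝔮) 𝔮.ResidueField] at h
      have h6 : algebraMap B (Localization.AtPrime 𝔮) (s i) ∈
          maximalIdeal (Localization.AtPrime 𝔮) := by
        rw [← residue_eq_zero_iff]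
        exact h
      exact hs i ((IsLocalization.AtPrime.to_map_mem_maximal_iff _ 𝔮 _).1 h6)
    have h6 : ∀ i, residue V ⟨algebraMap K L (c i / c j), h2 i⟩ =
        f (algebraMap B 𝔮.ResidueField (b i) / algebraMap B 𝔮.ResidueField (s i)) := by
      intro i
      rw [map_div₀ f, eq_div_iff (hfs i), ← hf _ (hBV _), ← hf _ (hBV _), ← map_mul]
      congr 1
      apply Subtype.ext
      change algebraMap K L (c i / c j) * algebraMap B L (s i) = algebraMap B L (b i)
      rw [IsScalarTower.algebraMap_apply B K L, IsScalarTower.algebraMap_apply B K L, ← map_mul,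
        hbs i]
    have h7 := Fintype.linearIndependent_iff.1 hu
      (fun i => algebraMap B 𝔮.ResidueField (b i) / algebraMap B 𝔮.ResidueField (s i)) (by
        rw [← h5]
        refine Finset.sum_congr rfl fun i _ => ?_
        rw [map_mul, h6 i, hw i]
        rfl) j
    have h8 := h6 j
    rw [h7, map_zero] at h8
    have h9 : (⟨algebraMap K L (c j / c j), h2 j⟩ : V) = 1 := by
      apply Subtype.ext
      change algebraMap K L (c j / c j) = 1
      rw [div_self hcj, map_one]
    rw [h9, map_one] at h8
    exact one_ne_zero h8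
  have := hli.fintype_card_le_finrank
  rwa [Fintype.card_fin] at this

end

end Pool.Agent.Y562.NN
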