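import Pool.Agent.Y562.NN.Deg

/-!
# Function fields
-/

set_option autoImplicit false

namespace Pool.Agent.Y562.NN

open IsLocalRing Polynomial NNReal
open Pool.Agent.Results.MP_3554b5_lc.UnramifiedNorms

/-! ### Extensions of fields -/

theorem hasExt_mono {κ : Type} [Field κ] {D D' : ℕ} (h : HasExt κ D) (hD : D ≤ D') :
    HasExt κ D' := by
  obtain ⟨d, h1, h2, h3⟩ := h
  exact ⟨d, h1, h2.trans hD, h3⟩

/-- a separable polynomial without roots -/
theorem hasExt_of_poly {k κ : Type} [Field k] [Field κ] [Algebra k κ] (f : k[X])
    (hd : 0 < f.natDegree) (hs : f.Separable) (hno : ∀ α : κ, aeval α f ≠ 0) :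
    HasExt κ f.natDegree := by
  have hf0 : f ≠ 0 := by
    rintro rfl
    simp at hd
  have hinj : Function.Injective (algebraMap k κ) := (algebraMap k κ).injective
  have hg0 : f.map (algebraMap k κ) ≠ 0 := (Polynomial.map_ne_zero_iff hinj).2 hf0
  have hgd : (f.map (algebraMap k κ)).natDegree = f.natDegree := natDegree_map_eq_of_injective hinj f
  have hu : ¬ IsUnit (f.map (algebraMap k κ)) := by
    intro h
    have h1 := natDegree_eq_zero_of_isUnit h
    omega
  obtain ⟨h, hirr, hdvd⟩ := WfDvdMonoid.exists_irreducible_factor hu hg0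
  have h1 : h.natDegree ≤ f.natDegree := by
    rw [← hgd]
    exact natDegree_le_of_dvd hdvd hg0
  have h2 : 2 ≤ h.natDegree := by
    have h3 := hirr.natDegree_pos
    by_contra hlt
    have h4 : h.natDegree = 1 := by omega
    have h5 : h.degree = 1 := by
      rw [degree_eq_natDegree hirr.ne_zero, h4]
      rfl
    obtain ⟨α, hα⟩ := exists_root_of_degree_eq_one h5
    apply hno α
    rw [aeval_def, ← eval_map]
    exact hα.dvd hdvd
  have h3 : h.Separable := hs.map.of_dvd hdvd
  let _ : Fact (Irreducible h) := ⟨hirr⟩
  refine ⟨h.natDegree, h2, h1, AdjoinRoot h, inferInstance, inferInstance,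
    Pool.Agent.TH686.NF.isSeparable_adjoinRoot hirr h3, ?_⟩
  rw [(AdjoinRoot.powerBasis hirr.ne_zero).finrank, AdjoinRoot.powerBasis_dim]

/-- A field whose separable closure has infinite degree has irreducible separable polynomials of
large degree. -/
theorem exists_poly {k : Type} [Field k] (h : ¬ FiniteDimensional k (SeparableClosure k)) (n : ℕ) :
    ∃ f : k[X], Irreducible f ∧ f.Separable ∧ n < f.natDegree := by
  have h1 : ((n + 1 : ℕ) : Cardinal) ≤ Module.rank k (SeparableClosure k) := by
    have h2 : Cardinal.aleph0 ≤ Module.rank k (SeparableClosure k) := by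
      rw [← not_lt, Module.rank_lt_aleph0_iff]
      exact h
    exact (Cardinal.natCast_lt_aleph0).le.trans h2
  obtain ⟨s, hs, hli⟩ := exists_finset_linearIndependent_of_le_rank h1
  let E : IntermediateField k (SeparableClosure k) := IntermediateField.adjoin k (s : Set _)
  have hE : FiniteDimensional k E :=
    IntermediateField.finiteDimensional_adjoin fun x _ =>
      Algebra.IsIntegral.isIntegral (R := k) x
  have hsep : Algebra.IsSeparable k E := inferInstance
  have h3 : n + 1 ≤ Module.finrank k E := by
    have h4 : LinearIndependent k (fun x : s =>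
        (⟨(x : SeparableClosure k), IntermediateField.subset_adjoin k _ x.2⟩ : E)) := by
      refine LinearIndependent.of_comp E.val.toLinearMap ?_
      exact hli
    have h5 := h4.fintype_card_le_finrank
    rwa [Fintype.card_coe, hs] at h5
  obtain ⟨α, hα⟩ := Field.exists_primitive_element k E
  refine ⟨minpoly k α, minpoly.irreducible (Algebra.IsIntegral.isIntegral α),
    Algebra.IsSeparable.isSeparable k α, ?_⟩
  have h6 : Module.finrank k E = (minpoly k α).natDegree := by
    rw [← IntermediateField.adjoin.finrank (Algebra.IsIntegral.isIntegral α), hα,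
      IntermediateField.finrank_top']
  omega

/-- finite fields -/
theorem hasExt_of_finite (κ : Type) [Field κ] [Finite κ] : HasExt κ 2 := by
  obtain ⟨p, hp⟩ := CharP.exists κ
  have hp' : Fact p.Prime := ⟨CharP.char_is_prime κ p⟩
  have h1 := FiniteField.finrank_extension κ p 2
  exact ⟨2, le_rfl, le_rfl, FiniteField.Extension κ p 2, inferInstance, inferInstance,
    inferInstance, h1⟩

/-! ### Fraction fields of subrings -/

theorem finite_frac {k F A : Type} [Field k] [Field F] [Algebra k F] [Algebra.EssFiniteType k F]
    [CommRing A] [IsDomain A] [Algebra k A] (φ : A →ₐ[k] F) (hφ : Function.Injective φ)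
    (halg : Algebra.IsAlgebraic φ.range F) :
    ∃ _ : Algebra (FractionRing A) F, FiniteDimensional (FractionRing A) F ∧
      ∀ a, algebraMap (FractionRing A) F (algebraMap A _ a) = φ a := by
  let _ : Algebra A F := φ.toRingHom.toAlgebra
  have h0 : IsScalarTower k A F := IsScalarTower.of_algebraMap_eq fun x => (φ.commutes x).symm
  have hinj : Function.Injective (algebraMap A F) := hφ
  have hfs : FaithfulSMul A F := (faithfulSMul_iff_algebraMap_injective A F).2 hinj
  let _ : Algebra (FractionRing A) F := FractionRing.liftAlgebra A F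
  have h1 : IsScalarTower A (FractionRing A) F := FractionRing.isScalarTower_liftAlgebra A F
  have h2 : IsScalarTower k (FractionRing A) F := by
    refine IsScalarTower.of_algebraMap_eq fun x => ?_
    rw [IsScalarTower.algebraMap_apply k A (FractionRing A),
      ← IsScalarTower.algebraMap_apply A (FractionRing A) F,
      ← IsScalarTower.algebraMap_apply k A F]
  have h3 : Algebra.IsAlgebraic A F := by
    refine Algebra.IsAlgebraic.of_ringHom_of_comp_eq (S := φ.range) (B := F)
      φ.rangeRestrict.toRingHom (RingHom.id F) φ.rangeRestrict_surjective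
      Function.injective_id ?_
    ext x
    rfl
  have h4 : Algebra.IsAlgebraic (FractionRing A) F :=
    (IsFractionRing.comap_isAlgebraic_iff (A := A) (K := FractionRing A) (C := F)).1 h3
  have h5 : Algebra.EssFiniteType (FractionRing A) F :=
    Algebra.EssFiniteType.of_comp k (FractionRing A) F
  refine ⟨inferInstance, Algebra.finite_of_essFiniteType_of_isAlgebraic, fun a => ?_⟩
  rw [← IsScalarTower.algebraMap_apply A (FractionRing A) F]
  rfl

end Pool.Agent.Y562.NN
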