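import Pool.Agent.Y562.NN.FF

/-!
# Function fields: the main argument
-/

set_option autoImplicit false

namespace Pool.Agent.Y562.NN

open IsLocalRing Polynomial NNReal
open Pool.Agent.Results.MP_3554b5_lc.UnramifiedNorms

/-- The valuations of `F` with real values: among `N` incomparable ones there is a tame one. -/
def TameF (F : Type) [Field F] : Prop :=
  ∀ D : ℕ, ∃ N : ℕ, ∀ v : Fin N → Valuation F ℝ≥0,
    (Pairwise fun i j => ∃ x, v i x < 1 ∧ 1 < v j x) → ∃ i, (ofValuation (v i)).TameUpTo D

/-- The core of the argument. -/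
theorem core_step (D N : ℕ) (K : Type) [Field K]
    (hN : ∀ v : Fin N → Valuation K ℝ≥0, (Pairwise fun i j => ∃ x, v i x < 1 ∧ 1 < v j x) →
        ∃ i, (ofValuation (v i)).TameUpTo D)
    (B : Type) [CommRing B] (g : B →+* K) (P : Fin N → Ideal B)
    (hne : ∀ i j, i ≠ j → ¬ P i ≤ P j) (V : Fin N → ValuationSubring K)
    (hV : ∀ i, IsDiscreteValuationRing (V i)) (hV1 : ∀ i, ∀ b ∈ P i, (V i).valuation (g b) < 1)
    (hV2 : ∀ i, ∀ b, b ∉ P i → (V i).valuation (g b) = 1)
    (hext : ∀ i, HasExt (ResidueField (V i)) D) : False := by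
  have h4 := fun i => exists_real (V i) (hV i)
  choose v hv using h4
  have hlt : ∀ i x, (V i).valuation x < 1 ↔ v i x < 1 := by
    intro i x
    rw [hv i]
    exact ((v i).isEquiv_valuation_valuationSubring.lt_one_iff_lt_one).symm
  have heq : ∀ i x, (V i).valuation x = 1 ↔ v i x = 1 := by
    intro i x
    rw [hv i]
    exact ((v i).isEquiv_valuation_valuationSubring.eq_one_iff_eq_one).symm
  have hinc : Pairwise fun i j => ∃ x, v i x < 1 ∧ 1 < v j x := by
    intro i j hij
    obtain ⟨a, ha, ha'⟩ := SetLike.not_le_iff_exists.1 (hne i j hij)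
    obtain ⟨b, hb, hb'⟩ := SetLike.not_le_iff_exists.1 (hne j i hij.symm)
    have h5 := (hlt i _).1 (hV1 i a ha)
    have h6 := (heq i _).1 (hV2 i b hb')
    have h7 := (heq j _).1 (hV2 j a ha')
    have h8 := (hlt j _).1 (hV1 j b hb)
    have hb0 : g b ≠ 0 := by
      intro h
      rw [h, map_zero] at h6
      exact zero_ne_one h6
    refine ⟨g a / g b, ?_, ?_⟩
    · rw [map_div₀, h6, div_one]
      exact h5
    · rw [map_div₀, h7, one_div]
      exact (one_lt_inv₀ (pos_iff_ne_zero.2 ((Valuation.ne_zero_iff _).2 hb0))).2 h8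
  obtain ⟨i, hi⟩ := hN v hinc
  have h5 : ∀ W : ValuationSubring K, V i = W → HasExt (ResidueField W) D := by
    rintro _ rfl
    exact hext i
  obtain ⟨d, hd1, hd2, L, fL, aL, h6, h7⟩ := h5 _ (hv i)
  have h8 : IsDiscreteValuationRing (v i).valuationSubring := by
    have h9 := hV i
    rw [hv i] at h9
    exact h9
  obtain ⟨a, ha⟩ := value_not_pow (v i) h8 hd1
  rcases (hi d (by omega) hd2).1 with h9 | h9
  · obtain ⟨c, hc⟩ := h9 a
    exact ha c hc
  · exact h9 ⟨L, fL, aL, h6, h7⟩

/-- elements of the fraction field of a Dedekind domain at a prime ideal -/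
theorem dedekind_val (B : Type*) [CommRing B] [IsDedekindDomain B] (K : Type*) [Field K]
    [Algebra B K] [IsFractionRing B K] (𝔮 : Ideal B) [𝔮.IsPrime] (h0 : 𝔮 ≠ ⊥) (z : K) :
    (∃ b s : B, s ∉ 𝔮 ∧ z * algebraMap B K s = algebraMap B K b) ∨
      ∃ b s : B, s ∉ 𝔮 ∧ z⁻¹ * algebraMap B K s = algebraMap B K b := by
  let R := Localization.AtPrime 𝔮
  have hu : ∀ y : 𝔮.primeCompl, IsUnit (algebraMap B K y) := by
    intro y
    rw [isUnit_iff_ne_zero, Ne, FaithfulSMul.algebraMap_eq_zero_iff]
    intro h
    exact y.2 (by rw [h]; exact 𝔮.zero_mem)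
  let : Algebra R K := (IsLocalization.lift (M := 𝔮.primeCompl) (S := R) hu).toAlgebra
  have hBRK : IsScalarTower B R K :=
    IsScalarTower.of_algebraMap_eq' (IsLocalization.lift_comp hu).symm
  have hRK : IsFractionRing R K :=
    IsFractionRing.isFractionRing_of_isDomain_of_isLocalization 𝔮.primeCompl R K
  have hdom : IsDomain R := inferInstance
  have hdvr : IsDiscreteValuationRing R :=
    IsLocalization.AtPrime.isDiscreteValuationRing_of_dedekind_domain B h0 R
  have key : ∀ w : K, IsLocalization.IsInteger R w →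
      ∃ b s : B, s ∉ 𝔮 ∧ w * algebraMap B K s = algebraMap B K b := by
    rintro w ⟨r, rfl⟩
    obtain ⟨b, s, rfl⟩ := IsLocalization.exists_mk'_eq 𝔮.primeCompl r
    refine ⟨b, s, s.2, ?_⟩
    rw [IsScalarTower.algebraMap_apply B R K, ← map_mul, IsLocalization.mk'_spec,
      ← IsScalarTower.algebraMap_apply B R K]
  rcases ValuationRing.isInteger_or_isInteger R z with h | h
  · exact Or.inl (key z h)
  · exact Or.inr (key _ h)

/-- The case of an infinite field `k`. -/
theorem inf_case (k F : Type) [Field k] [Infinite k] [Field F] (hF : TameF F)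
    [Algebra (FractionRing k[X]) F] [FiniteDimensional (FractionRing k[X]) F] :
    FiniteDimensional k (SeparableClosure k) := by
  by_contra hcon
  obtain ⟨f, hirr, hsep, hdeg⟩ := exists_poly hcon (Module.finrank (FractionRing k[X]) F)
  obtain ⟨N, hN⟩ := hF f.natDegree
  let _ : Algebra k[X] F := ((algebraMap (FractionRing k[X]) F).comp
    (algebraMap k[X] (FractionRing k[X]))).toAlgebra
  have htow : IsScalarTower k[X] (FractionRing k[X]) F := IsScalarTower.of_algebraMap_eq' rfl
  let e : Fin N ↪ k := (Fin.valEmbedding).trans (Infinite.natEmbedding k)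
  let P : Fin N → Ideal k[X] := fun i => Ideal.span {X - C (e i)}
  have hmax : ∀ i, (P i).IsMaximal := fun i =>
    PrincipalIdealRing.isMaximal_of_irreducible (irreducible_X_sub_C _)
  have hp : ∀ i, (P i).IsPrime := fun i => (hmax i).isPrime
  have h0 : ∀ i, P i ≠ ⊥ := by
    intro i h
    rw [Ideal.span_singleton_eq_bot] at h
    exact X_sub_C_ne_zero _ h
  have h1 : ∀ i, (P i).height ≤ 1 := by
    intro i
    refine Ideal.height_le_one_of_isPrincipal_of_mem_minimalPrimes (P i) (P i) ?_
    rw [Ideal.minimalPrimes_eq_subsingleton_self]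
    exact Set.mem_singleton _
  have hne : ∀ i j, i ≠ j → ¬ P i ≤ P j := by
    intro i j hij h
    rw [Ideal.span_singleton_le_span_singleton] at h
    have h2 : (X - C (e i) : k[X]).eval (e j) = 0 := by
      obtain ⟨c, hc⟩ := h
      rw [hc, eval_mul]
      simp
    simp only [eval_sub, eval_X, eval_C, sub_eq_zero] at h2
    exact hij (e.injective h2.symm)
  have h3 := fun i => exists_dvr' k[X] (FractionRing k[X]) F (P i) (h0 i) (h1 i)
  choose V hV hV1 hV2 g hg hgm using h3
  refine core_step f.natDegree N F hN k[X] (algebraMap k[X] F) P hne V hV hV1 hV2 fun i => ?_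
  let _ : Algebra (P i).ResidueField (ResidueField (V i)) := (g i).toAlgebra
  let _ : Algebra k (ResidueField (V i)) :=
    ((g i).comp (algebraMap k (P i).ResidueField)).toAlgebra
  have ht : IsScalarTower k (P i).ResidueField (ResidueField (V i)) :=
    IsScalarTower.of_algebraMap_eq' rfl
  -- `k` is the residue field of `P i`
  have hsurj : Function.Surjective (algebraMap k (P i).ResidueField) := by
    have hb := Ideal.bijective_algebraMap_quotient_residueField (P i)
    intro z
    obtain ⟨q, rfl⟩ := hb.2 z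
    obtain ⟨p, rfl⟩ := Ideal.Quotient.mk_surjective q
    refine ⟨p.eval (e i), ?_⟩
    rw [IsScalarTower.algebraMap_apply k k[X] (P i).ResidueField,
      IsScalarTower.algebraMap_apply k[X] (k[X] ⧸ P i) (P i).ResidueField]
    congr 1
    refine Ideal.Quotient.eq.2 ?_
    rw [Ideal.mem_span_singleton, dvd_iff_isRoot]
    simp
  refine hasExt_of_poly f (by omega) hsep fun α hα => ?_
  have h4 : f.natDegree = (minpoly k α).natDegree := by
    rw [← minpoly.eq_of_irreducible hirr hα, natDegree_mul_C]
    exact inv_ne_zero (leadingCoeff_ne_zero.2 hirr.ne_zero)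
  have h5 := linearIndependent_pow (K := k) α
  have h6 : LinearIndependent (P i).ResidueField
      (fun j : Fin (minpoly k α).natDegree => α ^ (j : ℕ)) := by
    rw [Fintype.linearIndependent_iff] at h5 ⊢
    intro c hc j
    choose c' hc' using fun j => hsurj (c j)
    have h7 := h5 c' (by
      rw [← hc]
      refine Finset.sum_congr rfl fun j _ => ?_
      rw [← hc', algebraMap_smul]) j
    rw [← hc', h7, map_zero]
  have h7 := finrank_residue_le k[X] (FractionRing k[X]) F (P i)
    (dedekind_val k[X] (FractionRing k[X]) (P i) (h0 i)) (V i) (hV1 i) (hV2 i) (g i) (hgm i) _ _ h6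
  omega

end Pool.Agent.Y562.NN
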