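import Pool.Agent.Y562.NN.FF2

/-!
# Function fields: the theorem
-/

set_option autoImplicit false

namespace Pool.Agent.Y562.NN

open IsLocalRing Polynomial NNReal

theorem infinite_maximal (k : Type) [Field k] : {P : Ideal k[X] | P.IsMaximal}.Infinite := by
  intro hfin
  have hne : ∀ P : {P : Ideal k[X] | P.IsMaximal}, ∃ x : k[X], x ∈ P.1 ∧ x ≠ 0 := by
    intro P
    have hm : P.1.IsMaximal := P.2
    have h1 : P.1 ≠ ⊥ := Ring.ne_bot_of_isMaximal_of_not_isField hm (Polynomial.not_isField k)
    exact Submodule.exists_mem_ne_zero_of_ne_bot h1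
  choose x hx hx0 using hne
  have hF : Fintype {P : Ideal k[X] | P.IsMaximal} := hfin.fintype
  have h1 : (∏ P, x P) ∈ Ideal.jacobson (⊥ : Ideal k[X]) := by
    rw [Ideal.jacobson, Ideal.mem_sInf]
    intro J hJ
    exact J.mem_of_dvd (Finset.dvd_prod_of_mem x (Finset.mem_univ ⟨J, hJ.2⟩)) (hx ⟨J, hJ.2⟩)
  have h2 : Ideal.jacobson (⊥ : Ideal k[X]) = ⊥ :=
    IsJacobsonRing.out (inferInstance : IsJacobsonRing k[X]) Ideal.isRadical_bot
  rw [h2, Ideal.mem_bot, Finset.prod_eq_zero_iff] at h1
  obtain ⟨P, -, hP⟩ := h1
  exact hx0 P hP

/-- The case of a finite field `k`. -/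
theorem fin_case (k F : Type) [Field k] [Finite k] [Field F] (hF : TameF F)
    [Algebra (FractionRing k[X]) F] [FiniteDimensional (FractionRing k[X]) F] : False := by
  obtain ⟨N, hN⟩ := hF 2
  obtain ⟨P, hP1, hP2⟩ := exists_seq {P : Ideal k[X] | P.IsMaximal} N
    (by rw [(infinite_maximal k).encard_eq]; exact le_top)
  have hm : ∀ i, (P i).IsMaximal := hP2
  have hp : ∀ i, (P i).IsPrime := fun i => (hm i).isPrime
  refine main_step 2 N F hN k[X] P hP1 hp
    (fun i => Ring.ne_bot_of_isMaximal_of_not_isField (hm i) (Polynomial.not_isField k))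
    (fun i => ?_) (fun i => ?_)
  · refine Ideal.height_le_one_of_isPrincipal_of_mem_minimalPrimes (P i) (P i) ?_
    rw [Ideal.minimalPrimes_eq_subsingleton_self]
    exact Set.mem_singleton _
  · intro κ _ f hf
    have h1 : Algebra.FiniteType k (P i).ResidueField := by
      have h2 : Function.Surjective (algebraMap k[X] (P i).ResidueField) := by
        rw [IsScalarTower.algebraMap_eq k[X] (k[X] ⧸ P i) (P i).ResidueField]
        exact (Ideal.bijective_algebraMap_quotient_residueField (P i)).2.comp
          Ideal.Quotient.mk_surjective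
      exact Algebra.FiniteType.of_surjective (IsScalarTower.toAlgHom k k[X] (P i).ResidueField) h2
    have h2 : Module.Finite k (P i).ResidueField :=
      finite_of_finite_type_of_isJacobsonRing k (P i).ResidueField
    have h3 : Finite (P i).ResidueField := Module.finite_of_finite k
    let _ : Algebra (P i).ResidueField κ := f.toAlgebra
    have h4 : Module.Finite (P i).ResidueField κ := hf
    have h5 : Finite κ := Module.finite_of_finite (P i).ResidueField
    exact hasExt_of_finite κ

/-- The theorem on function fields. -/
theorem function_field (F : Type) [Field F] (hF : TameF F) (k : Type) [Field k] [Algebra k F]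
    (hfg : (⊤ : IntermediateField k F).FG) :
    FiniteDimensional k F ∨
      (Algebra.trdeg k F = 1 ∧ FiniteDimensional k (SeparableClosure k)) := by
  have hess : Algebra.EssFiniteType k F := IntermediateField.fg_top_iff.1 hfg
  obtain ⟨s, hs⟩ := exists_finset_isTranscendenceBasis k F
  have hcard := hs.cardinalMk_eq_trdeg
  have halg := hs.isAlgebraic
  rcases Nat.lt_trichotomy s.card 1 with h | h | h
  · -- algebraic
    left
    have h1 : s = ∅ := Finset.card_eq_zero.1 (by omega)
    subst h1
    have h2 : Algebra.IsAlgebraic k F := by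
      rw [← trdeg_eq_zero_iff, ← hcard]
      simp
    exact Algebra.finite_of_essFiniteType_of_isAlgebraic
  · -- transcendence degree one
    right
    have htr : Algebra.trdeg k F = 1 := by
      rw [← hcard]
      simp [h]
    refine ⟨htr, ?_⟩
    obtain ⟨x, hx⟩ := Finset.card_eq_one.1 h
    subst hx
    have hrange : Set.range ((↑) : ({x} : Finset F) → F) = {x} := by
      ext y
      simp
    have hr : (aeval (R := k) x).range = Algebra.adjoin k {x} :=
      (Algebra.adjoin_singleton_eq_range_aeval k x).symm
    have htx : Transcendental k x := by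
      have h1 := hs.1
      have h2 : x ∈ ({x} : Finset F) := Finset.mem_singleton_self x
      exact h1.transcendental ⟨x, h2⟩
    have hinj : Function.Injective (aeval (R := k) x) := transcendental_iff_injective.1 htx
    have halg' : Algebra.IsAlgebraic (aeval (R := k) x).range F := by
      have key : ∀ S : Subalgebra k F, S = (aeval (R := k) x).range →
          Algebra.IsAlgebraic S F → Algebra.IsAlgebraic (aeval (R := k) x).range F := by
        rintro _ rfl h1
        exact h1
      refine key _ ?_ halg
      rw [hr, hrange]
    obtain ⟨_, hfd, -⟩ := finite_frac (aeval (R := k) x) hinj halg'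
    rcases finite_or_infinite k with hk | hk
    · exact (fin_case k F hF).elim
    · exact inf_case k F hF
  · -- transcendence degree at least two
    exfalso
    have hinj : Function.Injective (MvPolynomial.aeval (R := k) ((↑) : s → F)) := hs.1
    have halg' : Algebra.IsAlgebraic
        (MvPolynomial.aeval (R := k) ((↑) : s → F)).range F := by
      have key : ∀ S : Subalgebra k F, S = (MvPolynomial.aeval (R := k) ((↑) : s → F)).range →
          Algebra.IsAlgebraic S F →
          Algebra.IsAlgebraic (MvPolynomial.aeval (R := k) ((↑) : s → F)).range F := by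
        rintro _ rfl h1
        exact h1
      exact key _ (Algebra.adjoin_range_eq_range_aeval k _) halg
    obtain ⟨_, hfd, -⟩ := finite_frac _ hinj halg'
    obtain ⟨N, hN⟩ := hF 3
    have h1 := dim_le_one N F hN (MvPolynomial s k)
    rw [MvPolynomial.ringKrullDim_of_isNoetherianRing, ringKrullDim_eq_zero_of_field] at h1
    have h2 : Nat.card s = s.card := by
      simp
    rw [h2, zero_add] at h1
    have h3 : (s.card : WithBot ℕ∞) ≤ ((1 : ℕ) : WithBot ℕ∞) := h1
    have h4 : s.card ≤ 1 := by exact_mod_cast h3
    omega

end Pool.Agent.Y562.NN
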