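import Mathlib

/-!
# Lengths of modules over one-dimensional Noetherian domains (Krull and Akizuki)
-/

set_option autoImplicit false

namespace Pool.Agent.Y562.NN

section Length

variable {R : Type*} [CommRing R] {A B C : Type*} [AddCommGroup A] [AddCommGroup B]
  [AddCommGroup C] [Module R A] [Module R B] [Module R C]

theorem length_comp (f : A →ₗ[R] B) (g : B →ₗ[R] C) (hg : Function.Injective g) :
    Module.length R (C ⧸ LinearMap.range (g.comp f)) =
      Module.length R (B ⧸ LinearMap.range f) + Module.length R (C ⧸ LinearMap.range g) := by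
  have h1 : LinearMap.range f ≤ (LinearMap.range (g.comp f)).comap g := by
    rintro _ ⟨a, rfl⟩
    exact ⟨a, rfl⟩
  have h2 : LinearMap.range (g.comp f) ≤ LinearMap.range g := by
    rintro _ ⟨a, rfl⟩
    exact ⟨f a, rfl⟩
  refine Module.length_eq_add_of_exact (Submodule.mapQ _ _ g h1) (Submodule.factor h2) ?_
    (Submodule.factor_surjective h2) ?_
  · rw [injective_iff_map_eq_zero]
    intro x hx
    obtain ⟨b, rfl⟩ := Submodule.Quotient.mk_surjective _ x
    rw [Submodule.mapQ_apply, Submodule.Quotient.mk_eq_zero] at hx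
    obtain ⟨a, ha⟩ := hx
    rw [Submodule.Quotient.mk_eq_zero]
    exact ⟨a, hg ha⟩
  · intro y
    obtain ⟨c, rfl⟩ := Submodule.Quotient.mk_surjective _ y
    have h0 : Submodule.factor h2 (Submodule.Quotient.mk c) = Submodule.Quotient.mk c := rfl
    rw [h0, Submodule.Quotient.mk_eq_zero]
    constructor
    · rintro ⟨b, rfl⟩
      exact ⟨Submodule.Quotient.mk b, by rw [Submodule.mapQ_apply]⟩
    · rintro ⟨x, hx⟩
      obtain ⟨b, rfl⟩ := Submodule.Quotient.mk_surjective _ x
      rw [Submodule.mapQ_apply, Submodule.Quotient.eq] at hx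
      have h3 := h2 hx
      have h4 : g b ∈ LinearMap.range g := ⟨b, rfl⟩
      have h5 := Submodule.sub_mem _ h4 h3
      rwa [sub_sub_cancel] at h5

theorem length_smul_eq (f : A →ₗ[R] B) (hf : Function.Injective f) (c : R)
    (hc : Function.Injective (LinearMap.lsmul R B c))
    (hfin : Module.length R (B ⧸ LinearMap.range f) ≠ ⊤) :
    Module.length R (B ⧸ LinearMap.range (LinearMap.lsmul R B c)) =
      Module.length R (A ⧸ LinearMap.range (LinearMap.lsmul R A c)) := by
  have h1 := length_comp (LinearMap.lsmul R A c) f hf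
  have h2 := length_comp f (LinearMap.lsmul R B c) hc
  have h3 : f.comp (LinearMap.lsmul R A c) = (LinearMap.lsmul R B c).comp f := by
    ext x
    simp
  rw [h3, h2, add_comm] at h1
  exact ENat.add_left_injective_of_ne_top hfin h1

/-- a module all of whose finitely generated submodules have length at most `N` has length at
most `N` -/
theorem length_le_of_fg (N : ℕ) (h : ∀ F : Submodule R A, F.FG → Module.length R F ≤ N) :
    Module.length R A ≤ N := by
  by_contra hcon
  rw [not_le, Module.length_eq_height] at hcon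
  have h1 : ((N + 1 : ℕ) : ℕ∞) ≤ Order.height (⊤ : Submodule R A) := by
    rw [Nat.cast_add, Nat.cast_one]
    exact Order.add_one_le_of_lt hcon
  obtain ⟨p, -, hp⟩ := Order.exists_series_of_le_height _ h1
  have h2 : ∀ i : Fin p.length, ∃ x, x ∈ p i.succ ∧ x ∉ p i.castSucc := by
    intro i
    have h3 : p i.castSucc < p i.succ := p.strictMono (Fin.castSucc_lt_succ)
    obtain ⟨x, hx, hx2⟩ := SetLike.exists_of_lt h3
    exact ⟨x, hx, hx2⟩
  choose x hx1 hx2 using h2
  let F : Submodule R A := Submodule.span R (Set.range x)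
  have hF : F.FG := Submodule.fg_span (Set.finite_range x)
  have hxF : ∀ i, x i ∈ F := fun i => Submodule.subset_span ⟨i, rfl⟩
  have h4 : StrictMono (fun i : Fin (p.length + 1) => (p i).comap F.subtype) := by
    rw [Fin.strictMono_iff_lt_succ]
    intro i
    rw [SetLike.lt_iff_le_and_exists]
    refine ⟨Submodule.comap_mono (p.strictMono Fin.castSucc_lt_succ).le, ⟨x i, hxF i⟩, hx1 i,
      hx2 i⟩
  let q : LTSeries (Submodule R F) := LTSeries.mk p.length _ h4
  have h5 : (q.length : WithBot ℕ∞) ≤ Order.krullDim (Submodule R F) := Order.LTSeries.length_le_krullDim q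
  rw [← Module.coe_length] at h5
  have h6 : ((N + 1 : ℕ) : ℕ∞) ≤ Module.length R F := by
    have h7 : ((N + 1 : ℕ) : WithBot ℕ∞) ≤ (Module.length R F : WithBot ℕ∞) := by
      have h8 : q.length = N + 1 := hp
      rw [h8] at h5
      exact h5
    exact_mod_cast h7
  have h7 := h6.trans (h F hF)
  have h8 : N + 1 ≤ N := by exact_mod_cast h7
  omega

end Length

section Dim

variable {R : Type*} [CommRing R] [IsDomain R] [IsNoetherianRing R] [Ring.KrullDimLE 1 R]

/-- A finitely generated module over a one-dimensional Noetherian domain which is killed by a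
nonzero element has finite length. -/
theorem finLen {N : Type*} [AddCommGroup N] [Module R N] [Module.Finite R N] (s : R) (hs : s ≠ 0)
    (h : ∀ x : N, s • x = 0) : IsFiniteLength R N := by
  have h0 : IsFiniteLength R (R ⧸ Ideal.span {s}) :=
    isFiniteLength_quotient_span_singleton R (mem_nonZeroDivisors_of_ne_zero hs)
  rw [isFiniteLength_iff_isNoetherian_isArtinian]
  refine ⟨inferInstance, ?_⟩
  have h1 : ∀ P : Submodule R N, P.FG → IsArtinian R P := by
    intro P hP
    induction P, hP using Submodule.fg_induction with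
    | singleton x =>
      have h2 : Ideal.span {s} ≤ LinearMap.ker (LinearMap.toSpanSingleton R N x) := by
        rw [Ideal.span_singleton_le_iff_mem]
        exact h x
      let g := (Submodule.liftQ (Ideal.span {s}) (LinearMap.toSpanSingleton R N x) h2)
      have h3 : LinearMap.range g = Submodule.span R {x} := by
        rw [Submodule.range_liftQ, LinearMap.range_toSpanSingleton]
      rw [← h3]
      exact (isFiniteLength_iff_isNoetherian_isArtinian.1
        (h0.of_surjective (f := g.rangeRestrict) g.surjective_rangeRestrict)).2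
    | sup P Q hP hQ h1 h2 => exact isArtinian_sup P Q
  have h2 := h1 ⊤ Module.Finite.fg_top
  exact isArtinian_of_linearEquiv (Submodule.topEquiv (R := R) (M := N))

omit [IsNoetherianRing R] [Ring.KrullDimLE 1 R] in
theorem killed {W : Type*} [AddCommGroup W] [Module R W] (E M : Submodule R W) (hM : M.FG)
    (hE : ∀ x : W, ∃ r : R, r ≠ 0 ∧ r • x ∈ E) : ∃ s : R, s ≠ 0 ∧ ∀ x ∈ M, s • x ∈ E := by
  induction M, hM using Submodule.fg_induction with
  | singleton x =>
    obtain ⟨r, hr, hrx⟩ := hE x
    refine ⟨r, hr, fun y hy => ?_⟩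
    obtain ⟨a, rfl⟩ := Submodule.mem_span_singleton.1 hy
    rw [smul_comm]
    exact E.smul_mem a hrx
  | sup P Q hP hQ h1 h2 =>
    obtain ⟨s, hs, h3⟩ := h1
    obtain ⟨t, ht, h4⟩ := h2
    refine ⟨s * t, mul_ne_zero hs ht, fun y hy => ?_⟩
    obtain ⟨p, hp, q, hq, rfl⟩ := Submodule.mem_sup.1 hy
    rw [smul_add]
    refine E.add_mem ?_ ?_
    · rw [mul_comm, mul_smul]
      exact E.smul_mem t (h3 p hp)
    · rw [mul_smul]
      exact E.smul_mem s (h4 q hq)

omit [IsDomain R] [IsNoetherianRing R] [Ring.KrullDimLE 1 R] in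
theorem length_le_of_le_range {P Q : Type*} [AddCommGroup P] [Module R P] [AddCommGroup Q]
    [Module R Q] (g : P →ₗ[R] Q) (F : Submodule R Q) (h : F ≤ LinearMap.range g) :
    Module.length R F ≤ Module.length R P :=
  (Module.length_le_of_injective (Submodule.inclusion h) (Submodule.inclusion_injective h)).trans
    (Module.length_le_of_surjective g.rangeRestrict g.surjective_rangeRestrict)

theorem length_quot_le {W Q : Type*} [AddCommGroup W] [Module R W] [AddCommGroup Q] [Module R Q]
    (hinj : ∀ r : R, r ≠ 0 → ∀ x : W, r • x = 0 → x = 0) (E : Submodule R W) (hEfg : E.FG)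
    (hE : ∀ x : W, ∃ r : R, r ≠ 0 ∧ r • x ∈ E) (c : R) (hc : c ≠ 0) (q : W →ₗ[R] Q)
    (hqs : Function.Surjective q) (hqc : ∀ x, q (c • x) = 0) :
    ∃ N : ℕ, Module.length R Q ≤ N := by
  have hfinE : Module.length R (E ⧸ LinearMap.range (LinearMap.lsmul R E c)) ≠ ⊤ := by
    rw [Module.length_ne_top_iff]
    have : Module.Finite R E := Module.Finite.iff_fg.2 hEfg
    refine finLen c hc fun x => ?_
    obtain ⟨y, rfl⟩ := Submodule.Quotient.mk_surjective _ x
    rw [← Submodule.Quotient.mk_smul, Submodule.Quotient.mk_eq_zero]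
    exact ⟨y, rfl⟩
  obtain ⟨N, hN⟩ := ENat.ne_top_iff_exists.1 hfinE
  refine ⟨N, length_le_of_fg N fun F hF => ?_⟩
  obtain ⟨S, rfl⟩ := hF
  obtain ⟨σ, hσ⟩ : ∃ σ : Q → W, ∀ y, q (σ y) = y := ⟨_, Function.surjInv_eq hqs⟩
  let M0 : Submodule R W := Submodule.span R (σ '' (S : Set _))
  have hM0 : M0.map q = Submodule.span R (S : Set _) := by
    rw [Submodule.map_span, Set.image_image]
    congr 1
    ext x
    constructor
    · rintro ⟨y, hy, rfl⟩
      change q (σ y) ∈ _
      rw [hσ y]
      exact hy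
    · intro hx
      exact ⟨x, hx, hσ x⟩
  let M : Submodule R W := E ⊔ M0
  have hMfg : M.FG := hEfg.sup (Submodule.fg_span (S.finite_toSet.image _))
  have hEM : E ≤ M := le_sup_left
  obtain ⟨s, hs, hsM⟩ := killed E M hMfg hE
  have h1 : Module.length R (M ⧸ LinearMap.range (Submodule.inclusion hEM)) ≠ ⊤ := by
    rw [Module.length_ne_top_iff]
    have : Module.Finite R M := Module.Finite.iff_fg.2 hMfg
    refine finLen s hs fun x => ?_
    obtain ⟨y, rfl⟩ := Submodule.Quotient.mk_surjective _ x
    rw [← Submodule.Quotient.mk_smul, Submodule.Quotient.mk_eq_zero]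
    exact ⟨⟨s • (y : W), hsM y y.2⟩, rfl⟩
  have h2 : Function.Injective (LinearMap.lsmul R M c) := by
    rw [injective_iff_map_eq_zero]
    intro x hx
    have h3 : c • (x : W) = 0 := by
      have h4 := congrArg (Subtype.val) hx
      exact h4
    exact Subtype.ext (hinj c hc x h3)
  have h3 := length_smul_eq (Submodule.inclusion hEM) (Submodule.inclusion_injective hEM) c h2 h1
  let g : M →ₗ[R] Q := q.comp M.subtype
  have h4 : LinearMap.range (LinearMap.lsmul R M c) ≤ LinearMap.ker g := by
    rintro _ ⟨x, rfl⟩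
    rw [LinearMap.mem_ker]
    exact hqc x
  obtain ⟨g', h5⟩ : ∃ g' : (M ⧸ LinearMap.range (LinearMap.lsmul R M c)) →ₗ[R] Q,
      LinearMap.range g' = M.map q :=
    ⟨Submodule.liftQ _ g h4, by
      rw [Submodule.range_liftQ, LinearMap.range_comp, Submodule.range_subtype]⟩
  have h6 : Submodule.span R (S : Set _) ≤ LinearMap.range g' := by
    rw [h5, ← hM0]
    exact Submodule.map_mono le_sup_right
  have h7 := length_le_of_le_range g' _ h6
  rw [h3, ← hN] at h7
  exact h7

theorem finLen_quot {W : Type*} [CommRing W] [Algebra R W]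
    (hinj : ∀ r : R, r ≠ 0 → ∀ x : W, r • x = 0 → x = 0) (E : Submodule R W) (hEfg : E.FG)
    (hE : ∀ x : W, ∃ r : R, r ≠ 0 ∧ r • x ∈ E) (I : Ideal W) (c : R) (hc : c ≠ 0)
    (hcI : algebraMap R W c ∈ I) : IsFiniteLength R (W ⧸ I) := by
  obtain ⟨N, hN⟩ := length_quot_le hinj E hEfg hE c hc (Ideal.Quotient.mkₐ R I).toLinearMap
    Ideal.Quotient.mk_surjective (by
      intro x
      change Ideal.Quotient.mk I (c • x) = 0
      rw [Ideal.Quotient.eq_zero_iff_mem, Algebra.smul_def]
      exact I.mul_mem_right x hcI)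
  rw [← Module.length_ne_top_iff]
  exact ne_top_of_le_ne_top (ENat.natCast_ne_top N) hN

theorem noeth {W : Type*} [CommRing W] [Algebra R W]
    (hinj : ∀ r : R, r ≠ 0 → ∀ x : W, r • x = 0 → x = 0) (E : Submodule R W) (hEfg : E.FG)
    (hE : ∀ x : W, ∃ r : R, r ≠ 0 ∧ r • x ∈ E)
    (hdvd : ∀ w : W, w ≠ 0 → ∃ c : R, c ≠ 0 ∧ w ∣ algebraMap R W c) : IsNoetherianRing W := by
  rw [isNoetherianRing_iff_ideal_fg]
  intro I
  by_cases hI : I = ⊥
  · rw [hI]
    exact Submodule.fg_bot
  obtain ⟨w, hw, hw0⟩ := Submodule.exists_mem_ne_zero_of_ne_bot hI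
  obtain ⟨c, hc, hcw⟩ := hdvd w hw0
  have hcI : algebraMap R W c ∈ I := I.mem_of_dvd hcw hw
  have h1 := finLen_quot hinj E hEfg hE (Ideal.span {algebraMap R W c}) c hc
    (Ideal.mem_span_singleton_self _)
  have h2 : IsNoetherian R (W ⧸ Ideal.span {algebraMap R W c}) :=
    (isFiniteLength_iff_isNoetherian_isArtinian.1 h1).1
  have h3 : IsNoetherian W (W ⧸ Ideal.span {algebraMap R W c}) := isNoetherian_of_tower R h2
  refine Submodule.fg_of_fg_map_of_fg_inf_ker (Submodule.mkQ (Ideal.span {algebraMap R W c}))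
    (IsNoetherian.noetherian _) ?_
  rw [Submodule.ker_mkQ, inf_eq_right.2]
  · exact ⟨{algebraMap R W c}, by simp [Ideal.span]⟩
  · rwa [Ideal.span_singleton_le_iff_mem]

end Dim

end Pool.Agent.Y562.NN
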