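import Pool.Agent.Y562.NN.KA

/-!
# The theorem of Krull and Akizuki for integrally closed rings between a one-dimensional Noetherian
domain and a finite extension of its fraction field
-/

set_option autoImplicit false

namespace Pool.Agent.Y562.NN

theorem map_smul_alg (R V L : Type*) [CommRing R] [CommRing V] [CommRing L] [Algebra R V]
    [Algebra V L] [Algebra R L] [IsScalarTower R V L] (r : R) (x : V) :
    algebraMap V L (r • x) = r • algebraMap V L x := by
  rw [Algebra.smul_def, map_mul, ← IsScalarTower.algebraMap_apply, Algebra.smul_def]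

section

variable (R : Type*) [CommRing R] [IsDomain R]
  (K : Type*) [Field K] [Algebra R K] [IsFractionRing R K]
  (L : Type*) [Field L] [Algebra K L] [Algebra R L] [IsScalarTower R K L] [FiniteDimensional K L]
  (V : Type*) [CommRing V] [IsDomain V] [IsIntegrallyClosed V] [Algebra V L] [IsFractionRing V L]
  [Algebra R V] [IsScalarTower R V L]

include K L in
theorem exists_module : ∃ E : Submodule R V, E.FG ∧ ∀ x : V, ∃ r : R, r ≠ 0 ∧ r • x ∈ E := by
  classical
  have halg : Algebra.IsAlgebraic R L :=
    (IsFractionRing.comap_isAlgebraic_iff (A := R) (K := K) (C := L)).2 inferInstance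
  let b := Module.finBasis K L
  obtain ⟨y, hy0, hy⟩ := Algebra.IsAlgebraic.exists_integral_multiples R
    (Finset.univ.image b)
  have h1 : ∀ i, ∃ w : V, algebraMap V L w = y • b i := by
    intro i
    have h2 : IsIntegral R (y • b i) := hy _ (Finset.mem_image_of_mem _ (Finset.mem_univ i))
    exact IsIntegrallyClosed.isIntegral_iff.1 (h2.tower_top (A := V))
  choose w hw using h1
  let E : Submodule R V := Submodule.span R (Set.range w)
  have h2 : ∀ z : L, ∃ r : R, r ≠ 0 ∧ ∃ e ∈ E, algebraMap V L e = r • z := by
    intro z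
    have hz : z ∈ Submodule.span K (Set.range b) := by
      rw [b.span_eq]
      exact Submodule.mem_top
    induction hz using Submodule.span_induction with
    | mem x hx =>
      obtain ⟨i, rfl⟩ := hx
      exact ⟨y, hy0, w i, Submodule.subset_span ⟨i, rfl⟩, hw i⟩
    | zero => exact ⟨1, one_ne_zero, 0, E.zero_mem, by simp⟩
    | add x z hx hz h3 h4 =>
      obtain ⟨r, hr, e, he, hre⟩ := h3
      obtain ⟨s, hs, f, hf, hsf⟩ := h4
      refine ⟨r * s, mul_ne_zero hr hs, s • e + r • f, E.add_mem (E.smul_mem _ he)
        (E.smul_mem _ hf), ?_⟩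
      rw [map_add, map_smul_alg R V L, map_smul_alg R V L, hre, hsf, smul_add,
        smul_smul, smul_smul, mul_comm s r]
    | smul k x hx h3 =>
      obtain ⟨r, hr, e, he, hre⟩ := h3
      obtain ⟨a, s, hs, rfl⟩ := IsFractionRing.div_surjective (A := R) k
      have hs0 : s ≠ 0 := nonZeroDivisors.ne_zero hs
      refine ⟨r * s, mul_ne_zero hr hs0, a • e, E.smul_mem _ he, ?_⟩
      have h5 : algebraMap R K s ≠ 0 := by
        rw [Ne, FaithfulSMul.algebraMap_eq_zero_iff]
        exact hs0
      have h6 : s • ((algebraMap R K a / algebraMap R K s) • x) = a • x := by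
        rw [← algebraMap_smul K s, smul_smul, mul_div_cancel₀ _ h5, algebraMap_smul]
      rw [map_smul_alg R V L, hre, mul_smul, h6, smul_comm]
  refine ⟨E, Submodule.fg_span (Set.finite_range w), fun x => ?_⟩
  obtain ⟨r, hr, e, he, hre⟩ := h2 (algebraMap V L x)
  refine ⟨r, hr, ?_⟩
  rw [← map_smul_alg R V L] at hre
  rwa [← IsFractionRing.injective V L hre]

variable [IsNoetherianRing R] [Ring.KrullDimLE 1 R]

include K L in
theorem ka : IsNoetherianRing V ∧ ∀ (I : Ideal V) (c : R), c ≠ 0 → algebraMap R V c ∈ I →
    Module.Finite R (V ⧸ I) := by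
  have halg : Algebra.IsAlgebraic R L :=
    (IsFractionRing.comap_isAlgebraic_iff (A := R) (K := K) (C := L)).2 inferInstance
  obtain ⟨E, hE1, hE2⟩ := exists_module R K L V
  have hRL : Function.Injective (algebraMap R L) := by
    rw [IsScalarTower.algebraMap_eq R K L]
    exact (algebraMap K L).injective.comp (IsFractionRing.injective R K)
  have hinj : ∀ r : R, r ≠ 0 → ∀ x : V, r • x = 0 → x = 0 := by
    intro r hr x hx
    have h1 := congrArg (algebraMap V L) hx
    rw [map_smul_alg R V L, map_zero, Algebra.smul_def, mul_eq_zero] at h1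
    rcases h1 with h1 | h1
    · exact absurd (hRL (h1.trans (map_zero _).symm)) hr
    · exact IsFractionRing.injective V L (h1.trans (map_zero _).symm)
  have hdvd : ∀ w : V, w ≠ 0 → ∃ c : R, c ≠ 0 ∧ w ∣ algebraMap R V c := by
    intro w hw
    have h1 : IsAlgebraic R w := by
      have h2 : IsAlgebraic R (algebraMap V L w) := halg.isAlgebraic _
      rwa [isAlgebraic_algebraMap_iff (IsFractionRing.injective V L)] at h2
    exact h1.exists_nonzero_dvd (mem_nonZeroDivisors_of_ne_zero hw)
  refine ⟨noeth hinj E hE1 hE2 hdvd, fun I c hc hcI => ?_⟩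
  have h1 := (isFiniteLength_iff_isNoetherian_isArtinian.1
    (finLen_quot hinj E hE1 hE2 I c hc hcI)).1
  infer_instance

end

end Pool.Agent.Y562.NN
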