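import Pool.Agent.Y562.NN.Real
import Pool.Agent.Results.MP_3554b5_lc.UnramifiedNorms

/-!
# Places of the fraction field of a Noetherian domain
-/

set_option autoImplicit false

namespace Pool.Agent.Y562.NN

open IsLocalRing NNReal Polynomial
open Pool.Agent.W882.Nip3 Pool.Agent.Results.MP_3554b5_lc.UnramifiedNorms

section Primes

variable {A : Type*} [CommRing A] [IsDomain A] [IsNoetherianRing A]

omit [IsDomain A] [IsNoetherianRing A] in
theorem exists_prime_height (h : ¬ ringKrullDim A ≤ 1) :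
    ∃ Q : Ideal A, Q.IsPrime ∧ ¬ Q.height ≤ 1 := by
  rw [ringKrullDim_le_iff_height_le] at h
  push Not at h
  obtain ⟨Q, hQ, h2⟩ := h
  refine ⟨Q, hQ, fun h3 => ?_⟩
  exact absurd h2 (not_lt.2 (by exact_mod_cast h3))

omit [IsDomain A] in
theorem infinite_primes (Q : Ideal A) [Q.IsPrime] (hQ : ¬ Q.height ≤ 1) :
    {P : Ideal A | P.IsPrime ∧ P.height ≤ 1 ∧ P ≤ Q}.Infinite := by
  intro hfin
  set S := {P : Ideal A | P.IsPrime ∧ P.height ≤ 1 ∧ P ≤ Q} with hS
  have h1 : ¬ ((Q : Set A) ⊆ ⋃ P ∈ S, (P : Set A)) := by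
    intro h
    obtain ⟨P, hP, hQP⟩ := (Ideal.subset_union_prime_finite hfin (f := id) ⊥ ⊥
      (fun P hP _ _ => hP.1) (I := Q)).1 h
    have h2 : Q = P := le_antisymm hQP hP.2.2
    exact hQ (by rw [h2]; exact hP.2.1)
  obtain ⟨x, hxQ, hx⟩ := Set.not_subset.1 h1
  have h2 : Ideal.span {x} ≤ Q := by
    rw [Ideal.span_singleton_le_iff_mem]
    exact hxQ
  obtain ⟨P, hP, hPQ⟩ := Ideal.exists_minimalPrimes_le h2
  have hp : P.IsPrime := hP.1.1
  have h3 : P.height ≤ 1 := Ideal.height_le_one_of_isPrincipal_of_mem_minimalPrimes _ P hP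
  apply hx
  rw [Set.mem_iUnion₂]
  exact ⟨P, ⟨hp, h3, hPQ⟩, hP.1.2 (Ideal.mem_span_singleton_self x)⟩

omit [IsNoetherianRing A] in
theorem not_le_of_ne {P P' : Ideal A} (hP : P.IsPrime) (hP' : P'.IsPrime) (h0 : P ≠ ⊥)
    (h1 : P'.height ≤ 1) (hne : P ≠ P') : ¬ P ≤ P' := by
  intro h
  have h2 : P < P' := lt_of_le_of_ne h hne
  have h3 := Ideal.height_add_one_le_of_lt_of_isPrime h2
  have h4 : (⊥ : Ideal A) < P := bot_lt_iff_ne_bot.2 h0
  have h5 := Ideal.height_add_one_le_of_lt_of_isPrime h4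
  rw [Ideal.height_bot, zero_add] at h5
  have h6 : (1 : ℕ∞) + 1 ≤ 1 := ((add_le_add_left h5 1).trans h3).trans h1
  exact absurd h6 (by decide)

end Primes

/-- The field `κ` has a separable extension of degree between two and `D`. -/
def HasExt (κ : Type) [Field κ] (D : ℕ) : Prop :=
  ∃ d, 2 ≤ d ∧ d ≤ D ∧ ∃ (L : Type) (_ : Field L) (_ : Algebra κ L),
    Algebra.IsSeparable κ L ∧ Module.finrank κ L = d

/-- all finite extensions of `κ` have a separable extension of degree between two and `D` -/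
def HasExtAll (κ : Type) [Field κ] (D : ℕ) : Prop :=
  ∀ (κ' : Type) [Field κ'] (f : κ →+* κ'), f.Finite → HasExt κ' D

theorem hasExtAll_of_not_maximal {A : Type} [CommRing A] [IsDomain A] [IsNoetherianRing A]
    (P : Ideal A) [P.IsPrime] (hP : ¬ P.IsMaximal) : HasExtAll P.ResidueField 3 := by
  intro κ _ f hf
  let _ : Algebra P.ResidueField κ := f.toAlgebra
  let _ : Algebra (A ⧸ P) κ := (f.comp (algebraMap (A ⧸ P) P.ResidueField)).toAlgebra
  have h1 : IsScalarTower (A ⧸ P) P.ResidueField κ := IsScalarTower.of_algebraMap_eq' rfl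
  have h2 : FiniteDimensional P.ResidueField κ := hf
  have h3 : ¬ IsField (A ⧸ P) := fun h => hP (Ideal.Quotient.maximal_of_isField P h)
  obtain ⟨d, hd, L, fL, aL, h4, h5⟩ := exists_extension κ
    (fun d hd => exists_not_pow (A ⧸ P) P.ResidueField κ h3 d hd)
  refine ⟨d, ?_, ?_, L, fL, aL, h4, h5⟩ <;> omega

/-- valuations of the residue field as places -/
theorem tame_of_residue (D N : ℕ) (K : Type) [Field K]
    (hN : ∀ P : Fin N → ValuedPlace K, (Pairwise fun i j => (P i).Incomparable (P j)) →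
        ∃ i, (P i).TameUpTo D)
    (O : ValuationSubring K) (k : Type) [Field k] (π : O →+* k) (hπ : Function.Surjective π)
    (v : Fin N → Valuation k ℝ≥0) (hv : Pairwise fun i j => ∃ x, v i x < 1 ∧ 1 < v j x) :
    ∃ i, (ofValuation (v i)).TameUpTo D := by
  obtain ⟨i, hi⟩ := hN (fun i => ⟨O, k, inferInstance, π, hπ, v i⟩) (by
    intro i j hij
    obtain ⟨x, h1, h2⟩ := hv hij
    obtain ⟨y, rfl⟩ := hπ x
    have h0 : π y ≠ 0 := by
      intro h
      rw [h, map_zero] at h2
      exact absurd h2 (by simp)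
    have h3 := isUnit_of_ne O π hπ y h0
    obtain ⟨u, rfl⟩ := h3
    have h4 : ((u⁻¹ : Oˣ) : O) = (u : O) * (u⁻¹ : Oˣ) * (u⁻¹ : Oˣ) := by
      rw [Units.mul_inv, one_mul]
    have h5 : (((u⁻¹ : Oˣ) : O) : K) = ((u : O) : K)⁻¹ := by
      refine eq_inv_of_mul_eq_one_left ?_
      have h6 : ((u⁻¹ : Oˣ) : O) * (u : O) = 1 := Units.inv_mul u
      exact congrArg Subtype.val h6
    have h6 : π ((u⁻¹ : Oˣ) : O) = (π (u : O))⁻¹ := by
      refine eq_inv_of_mul_eq_one_left ?_
      rw [← map_mul, Units.inv_mul, map_one]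
    refine ⟨((u : O) : K), ?_, ⟨(u : O).2, h1⟩, ?_⟩
    · intro h
      apply h0
      have h7 : (u : O) = 0 := Subtype.ext h
      rw [h7, map_zero]
    · refine ⟨?_, ?_⟩
      · rw [← h5]
        exact ((u⁻¹ : Oˣ) : O).2
      · have h7 : (⟨((u : O) : K)⁻¹, by rw [← h5]; exact ((u⁻¹ : Oˣ) : O).2⟩ : O) =
            ((u⁻¹ : Oˣ) : O) := Subtype.ext h5.symm
        change v j (π _) < 1
        rw [h7, h6, map_inv₀]
        exact inv_lt_one_of_one_lt₀ h2)
  exact ⟨i, hi⟩

/-- The main step. -/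
theorem main_step (D N : ℕ) (K : Type) [Field K]
    (hN : ∀ v : Fin N → Valuation K ℝ≥0, (Pairwise fun i j => ∃ x, v i x < 1 ∧ 1 < v j x) →
        ∃ i, (ofValuation (v i)).TameUpTo D)
    (A : Type) [CommRing A] [IsDomain A] [IsNoetherianRing A] [Algebra (FractionRing A) K]
    [FiniteDimensional (FractionRing A) K]
    (P : Fin N → Ideal A) (hinj : Function.Injective P) (hp : ∀ i, (P i).IsPrime)
    (h0 : ∀ i, P i ≠ ⊥) (h1 : ∀ i, (P i).height ≤ 1)
    (h2 : ∀ i, HasExtAll (P i).ResidueField D) : False := by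
  let _ : Algebra A K := ((algebraMap (FractionRing A) K).comp
    (algebraMap A (FractionRing A))).toAlgebra
  have htow : IsScalarTower A (FractionRing A) K := IsScalarTower.of_algebraMap_eq' rfl
  have h3 := fun i => exists_dvr A (FractionRing A) K (P i) (h0 i) (h1 i)
  choose V hV hV1 hV2 f hf using h3
  have h4 := fun i => exists_real (V i) (hV i)
  choose v hv using h4
  have hlt : ∀ i x, (V i).valuation x < 1 ↔ v i x < 1 := by
    intro i x
    rw [hv i]
    exact ((v i).isEquiv_valuation_valuationSubring.lt_one_iff_lt_one).symm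
  have heq : ∀ i x, (V i).valuation x = 1 ↔ v i x = 1 := by
    intro i x
    rw [hv i]
    exact ((v i).isEquiv_valuation_valuationSubring.eq_one_iff_eq_one).symm
  have hinc : Pairwise fun i j => ∃ x, v i x < 1 ∧ 1 < v j x := by
    intro i j hij
    have hne : P i ≠ P j := fun h => hij (hinj h)
    obtain ⟨a, ha, ha'⟩ := SetLike.not_le_iff_exists.1
      (not_le_of_ne (hp i) (hp j) (h0 i) (h1 j) hne)
    obtain ⟨b, hb, hb'⟩ := SetLike.not_le_iff_exists.1
      (not_le_of_ne (hp j) (hp i) (h0 j) (h1 i) hne.symm)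
    have h5 := (hlt i _).1 (hV1 i a ha)
    have h6 := (heq i _).1 (hV2 i b hb')
    have h7 := (heq j _).1 (hV2 j a ha')
    have h8 := (hlt j _).1 (hV1 j b hb)
    have hb0 : algebraMap A K b ≠ 0 := by
      intro h
      rw [h, map_zero] at h6
      exact zero_ne_one h6
    refine ⟨algebraMap A K a / algebraMap A K b, ?_, ?_⟩
    · rw [map_div₀, h6, div_one]
      exact h5
    · rw [map_div₀, h7, one_div]
      exact (one_lt_inv₀ (pos_iff_ne_zero.2 ((Valuation.ne_zero_iff _).2 hb0))).2 h8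
  obtain ⟨i, hi⟩ := hN v hinc
  have h5 : ∀ W : ValuationSubring K, V i = W → HasExt (ResidueField W) D := by
    rintro _ rfl
    exact h2 i _ (f i) (hf i)
  obtain ⟨d, hd1, hd2, L, fL, aL, h6, h7⟩ := h5 _ (hv i)
  have h8 : IsDiscreteValuationRing (v i).valuationSubring := by
    have h9 := hV i
    rw [hv i] at h9
    exact h9
  obtain ⟨a, ha⟩ := value_not_pow (v i) h8 hd1
  rcases (hi d (by omega) hd2).1 with h9 | h9
  · obtain ⟨c, hc⟩ := h9 a
    exact ha c hc
  · exact h9 ⟨L, fL, aL, h6, h7⟩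

/-- A family of more than `N` ideals contains an injective sequence of length `N`. -/
theorem exists_seq {α : Type*} (S : Set α) (N : ℕ) (h : (N : ℕ∞) ≤ S.encard) :
    ∃ P : Fin N → α, Function.Injective P ∧ ∀ i, P i ∈ S := by
  obtain ⟨T, hTS, hT⟩ := Set.exists_subset_encard_eq h
  have hfin : T.Finite := Set.finite_of_encard_eq_coe hT
  have h1 : hfin.toFinset.card = N := by
    rw [hfin.encard_eq_coe_toFinset_card] at hT
    exact_mod_cast hT
  let e := (hfin.toFinset.equivFinOfCardEq h1).symm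
  exact ⟨fun i => (e i : α), fun i j hij => e.injective (Subtype.ext hij),
    fun i => hTS (hfin.mem_toFinset.1 (e i).2)⟩

theorem dim_le_one (N : ℕ) (K : Type) [Field K]
    (hN : ∀ v : Fin N → Valuation K ℝ≥0, (Pairwise fun i j => ∃ x, v i x < 1 ∧ 1 < v j x) →
        ∃ i, (ofValuation (v i)).TameUpTo 3)
    (A : Type) [CommRing A] [IsDomain A] [IsNoetherianRing A] [Algebra (FractionRing A) K]
    [FiniteDimensional (FractionRing A) K] : ringKrullDim A ≤ 1 := by
  by_contra h
  obtain ⟨Q, hQ, hQ1⟩ := exists_prime_height h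
  have h1 := (infinite_primes Q hQ1).sdiff (Set.finite_singleton (⊥ : Ideal A))
  obtain ⟨P, hP1, hP2⟩ := exists_seq _ N (by rw [h1.encard_eq]; exact le_top)
  have hp : ∀ i, (P i).IsPrime := fun i => (hP2 i).1.1
  refine main_step 3 N K hN A P hP1 hp (fun i => (hP2 i).2) (fun i => (hP2 i).1.2.1)
    (fun i => hasExtAll_of_not_maximal (P i) fun hmax => ?_)
  have h2 : P i = Q := hmax.eq_of_le hQ.ne_top (hP2 i).1.2.2
  exact hQ1 (by rw [← h2]; exact (hP2 i).1.2.1)

/-- the condition in terms of the quotient ring, for maximal ideals -/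
theorem hasExtAll_of_quotient {A : Type} [CommRing A] (P : Ideal A) [P.IsMaximal] (D : ℕ)
    (h : ∀ (κ : Type) [Field κ] (f : A ⧸ P →+* κ), f.Finite → HasExt κ D) :
    HasExtAll P.ResidueField D := by
  intro κ _ g hg
  refine h κ (g.comp (algebraMap (A ⧸ P) P.ResidueField)) (hg.comp ?_)
  exact RingHom.Finite.of_surjective _ (Ideal.bijective_algebraMap_quotient_residueField P).2

end Pool.Agent.Y562.NN
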