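import Pool.Agent.Y562.NN.DVR
import Pool.Agent.TH686.NF.Unram

/-!
# Real valuations of discrete valuation rings, extensions of prime degree
-/

set_option autoImplicit false

namespace Pool.Agent.Y562.NN

open IsLocalRing NNReal Polynomial

/-- the real valuation of a discrete valuation ring -/
theorem exists_real {K : Type*} [Field K] (V : ValuationSubring K)
    (hV : IsDiscreteValuationRing V) : ∃ v : Valuation K ℝ≥0, V = v.valuationSubring := by
  let w : Valuation K (WithZero (Multiplicative ℤ)) :=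
    (IsDiscreteValuationRing.maximalIdeal V).valuation K
  have h2 : (1 : ℝ≥0) < 2 := one_lt_two
  let v : Valuation K ℝ≥0 := w.map (WithZeroMulInt.toNNReal h2.ne_zero)
    (WithZeroMulInt.toNNReal_strictMono h2).monotone
  refine ⟨v, ?_⟩
  have h3 : ∀ x : K, v x ≤ 1 ↔ w x ≤ 1 := fun x => WithZeroMulInt.toNNReal_le_one_iff h2
  ext x
  rw [Valuation.mem_valuationSubring_iff, h3]
  constructor
  · intro hx
    exact IsDedekindDomain.HeightOneSpectrum.valuation_le_one
      (IsDiscreteValuationRing.maximalIdeal V) (⟨x, hx⟩ : V)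
  · intro hx
    obtain ⟨a, rfl⟩ := IsDiscreteValuationRing.exists_lift_of_le_one hx
    exact a.2

theorem value_not_pow {K : Type*} [Field K] (v : Valuation K ℝ≥0)
    (hV : IsDiscreteValuationRing v.valuationSubring) {d : ℕ} (hd : 2 ≤ d) :
    ∃ a : K, ∀ c : K, v a ≠ v c ^ d := by
  obtain ⟨ϖ, hϖ⟩ := IsDiscreteValuationRing.exists_irreducible v.valuationSubring
  have hlt : ∀ x : v.valuationSubring, ¬ IsUnit x ↔ v (x : K) < 1 := by
    intro x
    rw [← mem_nonunits_iff, ← mem_maximalIdeal, ValuationSubring.valuation_lt_one_iff]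
    exact (v.isEquiv_valuation_valuationSubring.lt_one_iff_lt_one).symm
  refine ⟨ϖ, fun c hc => ?_⟩
  have h1 : v (ϖ : K) ≠ 0 := by
    rw [Valuation.ne_zero_iff]
    intro h
    exact hϖ.ne_zero (Subtype.ext h)
  have h2 : v (ϖ : K) < 1 := (hlt ϖ).1 hϖ.not_isUnit
  have h3 : v c < 1 := by
    by_contra h
    rw [not_lt] at h
    rw [hc] at h2
    exact absurd h2 (not_lt.2 (one_le_pow₀ h))
  have hc0 : c ≠ 0 := by
    rintro rfl
    rw [map_zero, zero_pow (by omega)] at hc
    exact h1 hc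
  have hvc0 : v c ≠ 0 := (Valuation.ne_zero_iff _).2 hc0
  have h4 : v ((ϖ : K) / c) < 1 := by
    rw [map_div₀, hc, div_lt_one₀ (pos_iff_ne_zero.2 hvc0)]
    exact pow_lt_self_of_lt_one₀ (pos_iff_ne_zero.2 hvc0) h3 (by omega)
  let y : v.valuationSubring := ⟨c, h3.le⟩
  let z : v.valuationSubring := ⟨(ϖ : K) / c, h4.le⟩
  have h5 : ϖ = y * z := by
    apply Subtype.ext
    change (ϖ : K) = c * (ϖ / c)
    rw [mul_div_cancel₀ _ hc0]
  rcases hϖ.isUnit_or_isUnit h5 with h6 | h6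
  · exact (hlt y).2 h3 h6
  · exact (hlt z).2 h4 h6

/-- A field with an element which is not a `d`-th power for `d = 2` and one which is not a `d`-th
power for `d = 3` has a separable extension of degree two or three. -/
theorem exists_extension (κ : Type) [Field κ] (h : ∀ d : ℕ, 2 ≤ d → ∃ a : κ, ∀ c : κ, c ^ d ≠ a) :
    ∃ d : ℕ, (d = 2 ∨ d = 3) ∧ ∃ (L : Type) (_ : Field L) (_ : Algebra κ L),
      Algebra.IsSeparable κ L ∧ Module.finrank κ L = d := by
  obtain ⟨d, hd, hdp, hd0⟩ : ∃ d : ℕ, (d = 2 ∨ d = 3) ∧ d.Prime ∧ (d : κ) ≠ 0 := by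
    by_cases h2 : ((2 : ℕ) : κ) = 0
    · refine ⟨3, Or.inr rfl, Nat.prime_three, fun h3 => ?_⟩
      have h4 : ((3 : ℕ) : κ) = ((2 : ℕ) : κ) + 1 := by norm_num
      rw [h2, h3, zero_add] at h4
      exact one_ne_zero h4.symm
    · exact ⟨2, Or.inl rfl, Nat.prime_two, h2⟩
  obtain ⟨a, ha⟩ := h d hdp.two_le
  have ha0 : a ≠ 0 := by
    rintro rfl
    exact ha 0 (zero_pow hdp.ne_zero)
  have hirr : Irreducible (X ^ d - C a : κ[X]) := X_pow_sub_C_irreducible_of_prime hdp ha
  have hsep : (X ^ d - C a : κ[X]).Separable := separable_X_pow_sub_C a hd0 ha0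
  let _ : Fact (Irreducible (X ^ d - C a : κ[X])) := ⟨hirr⟩
  refine ⟨d, hd, AdjoinRoot (X ^ d - C a : κ[X]), inferInstance, inferInstance,
    Pool.Agent.TH686.NF.isSeparable_adjoinRoot hirr hsep, ?_⟩
  rw [(AdjoinRoot.powerBasis hirr.ne_zero).finrank, AdjoinRoot.powerBasis_dim,
    natDegree_X_pow_sub_C]

end Pool.Agent.Y562.NN
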